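import Mathlib
import Pool.Graph.R_seed8.Results.MP_c843e9_co.EvenDistances

/-!
# The bound `α ≤ 1 + δ_even (Λ - 1)` is sharp for all parameter values

For all `d ≥ 1` and `L ≥ 2` there is a connected graph with `δ_even = d`, `Λ = L` and
`α = 1 + d (L - 1)`: the chain of `d` stars with `L` leaves, consecutive stars sharing a leaf.
-/

set_option autoImplicit false

open Finset

namespace Pool.Agent.Results.MP_c843e9_co.SharpForAllParameters

open Pool.Agent.Results.MP_c843e9_co.EvenDistances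

/-- the vertices of the chain of stars: `d` centres and `d (L - 1) + 1` leaves -/
abbrev W (d l : ℕ) : Type := Fin d ⊕ Fin (d * l + 1)

/-- the centre `i` is adjacent to the leaves `i l, …, (i + 1) l` (here `l = L - 1`) -/
def cen (d l : ℕ) (x y : W d l) : Prop :=
  ∃ (i : Fin d) (j : Fin (d * l + 1)), x = .inl i ∧ y = .inr j ∧ i.1 * l ≤ j.1 ∧
    j.1 ≤ (i.1 + 1) * l

/-- the chain of stars -/
def gr (d l : ℕ) : SimpleGraph (W d l) where
  Adj x y := cen d l x y ∨ cen d l y x
  symm := ⟨fun _ _ h => h.symm⟩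
  loopless := by
    constructor
    rintro x (⟨i, j, h1, h2, -⟩ | ⟨i, j, h1, h2, -⟩) <;> rw [h1] at h2 <;> cases h2

variable {d l : ℕ}

theorem adj_lr (i : Fin d) (j : Fin (d * l + 1)) :
    (gr d l).Adj (.inl i) (.inr j) ↔ i.1 * l ≤ j.1 ∧ j.1 ≤ (i.1 + 1) * l := by
  constructor
  · rintro (⟨i', j', h1, h2, h3⟩ | ⟨i', j', h1, h2, h3⟩)
    · cases h1; cases h2; exact h3
    · cases h1
  · intro h
    exact Or.inl ⟨i, j, rfl, rfl, h⟩

theorem adj_side {x y : W d l} (h : (gr d l).Adj x y) : x.isLeft = !y.isLeft := by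
  rcases h with ⟨i, j, rfl, rfl, -⟩ | ⟨i, j, rfl, rfl, -⟩ <;> rfl

theorem walk_parity {x y : W d l} (p : (gr d l).Walk x y) :
    Even p.length ↔ x.isLeft = y.isLeft := by
  induction p with
  | nil => simp
  | cons h p ih =>
    rw [SimpleGraph.Walk.length_cons, Nat.even_add_one, ih, adj_side h]
    generalize Sum.isLeft _ = a
    generalize Sum.isLeft _ = b
    cases a <;> cases b <;> simp

theorem conn (hd : 0 < d) (hl : 0 < l) : (gr d l).Connected := by
  have h1 : ∀ n : ℕ, ∀ hn : n < d, (gr d l).Reachable (.inl ⟨0, hd⟩) (.inl ⟨n, hn⟩) := by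
    intro n
    induction n with
    | zero => intro _; exact SimpleGraph.Reachable.refl _
    | succ n ih =>
      intro hn
      have hj : (n + 1) * l < d * l + 1 := Nat.lt_succ_of_le (Nat.mul_le_mul_right l hn.le)
      have e1 : (gr d l).Adj (.inl ⟨n, by omega⟩) (.inr ⟨(n + 1) * l, hj⟩) :=
        (adj_lr _ _).2 ⟨Nat.mul_le_mul_right l (Nat.le_succ n), le_rfl⟩
      have e2 : (gr d l).Adj (.inl ⟨n + 1, hn⟩) (.inr ⟨(n + 1) * l, hj⟩) :=
        (adj_lr _ _).2 ⟨le_rfl, Nat.mul_le_mul_right l (Nat.le_succ _)⟩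
      exact (ih (by omega)).trans (e1.reachable.trans e2.symm.reachable)
  have h2 : ∀ x, (gr d l).Reachable (.inl ⟨0, hd⟩) x := by
    rintro (i | j)
    · exact h1 i.1 i.2
    · obtain ⟨i, hi1, hi2, hi3⟩ : ∃ i, i < d ∧ i * l ≤ j.1 ∧ j.1 ≤ (i + 1) * l := by
        rcases Nat.lt_or_ge (j.1 / l) d with h | h
        · refine ⟨j.1 / l, h, Nat.div_mul_le_self _ _, ?_⟩
          exact (Nat.lt_mul_div_succ j.1 hl).le.trans (Nat.mul_comm _ _).le
        · have h3 : d * l ≤ j.1 := (Nat.mul_le_mul_right l h).trans (Nat.div_mul_le_self _ _)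
          have h4 := j.2
          refine ⟨d - 1, by omega, (Nat.mul_le_mul_right l (Nat.sub_le d 1)).trans h3, ?_⟩
          rw [Nat.sub_add_cancel hd]
          omega
      exact (h1 i hi1).trans ((adj_lr ⟨i, hi1⟩ j).2 ⟨hi2, hi3⟩).reachable
  have : Nonempty (W d l) := ⟨.inl ⟨0, hd⟩⟩
  exact ⟨fun x y => (h2 x).symm.trans (h2 y)⟩

theorem even_dist (hd : 0 < d) (hl : 0 < l) (x y : W d l) :
    Even ((gr d l).dist x y) ↔ x.isLeft = y.isLeft := by
  obtain ⟨p, hp⟩ := (conn hd hl).exists_walk_length_eq_dist x y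
  rw [← hp]
  exact walk_parity p

theorem dEven_center (hd : 0 < d) (hl : 0 < l) (i : Fin d) : dEven (gr d l) (.inl i) = d := by
  classical
  unfold dEven
  have h1 : (univ.filter fun u => Even ((gr d l).dist u (.inl i))) =
      univ.map ⟨Sum.inl, Sum.inl_injective⟩ := by
    ext u
    rw [mem_filter, even_dist hd hl]
    cases u <;> simp
  convert (congrArg Finset.card h1).trans _ using 2
  rw [card_map, card_univ, Fintype.card_fin]

theorem delta_le (hd : 0 < d) (hl : 0 < l) : deltaEven (gr d l) ≤ d := by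
  unfold deltaEven
  have h := dEven_center hd hl (⟨0, hd⟩ : Fin d)
  refine (ciInf_le (OrderBot.bddBelow _) (Sum.inl ⟨0, hd⟩ : W d l)).trans h.le

theorem lam_le (hl : 0 < l) (v : W d l) : lam (gr d l) v ≤ l + 1 := by
  classical
  unfold lam
  obtain ⟨I, hI⟩ := ((gr d l).induce ((gr d l).neighborSet v)).exists_isNIndepSet_indepNum
  rw [← hI.card_eq]
  have h1 : I.card = (I.map ⟨Subtype.val, Subtype.val_injective⟩).card := (card_map _).symm
  rw [h1]
  have h2 : ∀ x ∈ I.map ⟨Subtype.val, Subtype.val_injective⟩, (gr d l).Adj v x := by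
    intro x hx
    rw [mem_map] at hx
    obtain ⟨y, -, rfl⟩ := hx
    exact y.2
  generalize I.map ⟨Subtype.val, Subtype.val_injective⟩ = J at h2
  rcases v with i | j
  · have h3 : ∀ x ∈ J, ∃ k ∈ Finset.Icc (i.1 * l) ((i.1 + 1) * l),
        ∃ h : k < d * l + 1, x = .inr ⟨k, h⟩ := by
      intro x hx
      have h4 := h2 x hx
      rcases x with a | b
      · exact absurd (adj_side h4) (by simp)
      · rw [adj_lr] at h4
        exact ⟨b.1, Finset.mem_Icc.2 h4, b.2, rfl⟩
    have h4 : J.card ≤ (Finset.Icc (i.1 * l) ((i.1 + 1) * l)).card := by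
      refine Finset.card_le_card_of_injOn
        (fun x => Sum.elim (fun _ => 0) (fun b => b.1) x) ?_ ?_
      · intro x hx
        obtain ⟨k, hk, h, rfl⟩ := h3 x hx
        exact hk
      · intro x hx y hy hxy
        obtain ⟨k, hk, h, rfl⟩ := h3 x hx
        obtain ⟨k', hk', h', rfl⟩ := h3 y hy
        have : k = k' := hxy
        subst this
        rfl
    refine h4.trans ?_
    rw [Nat.card_Icc, Nat.add_mul, Nat.one_mul]
    omega
  · have h3 : ∀ x ∈ J, ∃ k ∈ Finset.Icc (j.1 / l - 1) (j.1 / l), ∃ h : k < d,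
        x = .inl ⟨k, h⟩ := by
      intro x hx
      have h4 := h2 x hx
      rcases x with a | b
      · have h5 := h4.symm
        rw [adj_lr] at h5
        refine ⟨a.1, Finset.mem_Icc.2 ⟨?_, ?_⟩, a.2, rfl⟩
        · have := Nat.div_le_of_le_mul (h5.2.trans (Nat.mul_comm _ _).le)
          omega
        · exact (Nat.le_div_iff_mul_le hl).2 h5.1
      · exact absurd (adj_side h4) (by simp)
    have h4 : J.card ≤ (Finset.Icc (j.1 / l - 1) (j.1 / l)).card := by
      refine Finset.card_le_card_of_injOn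
        (fun x => Sum.elim (fun a => a.1) (fun _ => 0) x) ?_ ?_
      · intro x hx
        obtain ⟨k, hk, h, rfl⟩ := h3 x hx
        exact hk
      · intro x hx y hy hxy
        obtain ⟨k, hk, h, rfl⟩ := h3 x hx
        obtain ⟨k', hk', h', rfl⟩ := h3 y hy
        have : k = k' := hxy
        subst this
        rfl
    refine h4.trans ?_
    rw [Nat.card_Icc]
    omega

theorem le_indep : d * l + 1 ≤ (gr d l).indepNum := by
  classical
  have h1 : (univ.map ⟨Sum.inr, Sum.inr_injective⟩ : Finset (W d l)).card = d * l + 1 := by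
    rw [card_map, card_univ, Fintype.card_fin]
  rw [← h1]
  apply SimpleGraph.IsIndepSet.card_le_indepNum
  intro x hx y hy _ h
  rw [coe_map, coe_univ, Set.image_univ] at hx hy
  obtain ⟨a, rfl⟩ := hx
  obtain ⟨b, rfl⟩ := hy
  exact absurd (adj_side h) (by simp)

/-- For every connected graph with at least two vertices `α ≤ 1 + δ_even (Λ - 1)`, and for all
`d ≥ 1` and `L ≥ 2` there is such a graph with `δ_even = d`, `Λ = L` and `α = 1 + d (L - 1)`. Hence
`1 + d (L - 1)` is the largest independence number of a connected graph with `δ_even = d` and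
`Λ = L`. -/
theorem result : ∀ d L : ℕ, 1 ≤ d → 2 ≤ L →
    IsGreatest {a : ℕ | ∃ (V : Type) (_ : Fintype V) (_ : Nontrivial V) (G : SimpleGraph V),
      G.Connected ∧ deltaEven G = d ∧ Lam G = L ∧ G.indepNum = a} (1 + d * (L - 1)) := by
  intro d L hd hL
  obtain ⟨l, rfl⟩ : ∃ l, L = l + 1 := ⟨L - 1, by omega⟩
  have hl : 0 < l := by omega
  rw [Nat.add_sub_cancel]
  have hnt : Nontrivial (W d l) :=
    ⟨⟨.inl ⟨0, hd⟩, .inr ⟨0, Nat.succ_pos _⟩, by simp⟩⟩
  refine ⟨⟨W d l, inferInstance, hnt, gr d l, conn hd hl, ?_⟩, ?_⟩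
  · have h1 := Pool.Agent.Results.MP_c843e9_co.EvenDistances.result (W d l) (gr d l)
      (conn hd hl)
    have h2 := le_indep (d := d) (l := l)
    have h3 := delta_le hd hl
    have h4 : Lam (gr d l) ≤ l + 1 := by
      unfold Lam
      exact Finset.sup_le fun v _ => lam_le hl v
    have h5 : Lam (gr d l) - 1 = l := by
      refine le_antisymm (by omega) ?_
      by_contra hcon
      push Not at hcon
      have h6 : deltaEven (gr d l) * (Lam (gr d l) - 1) ≤ d * (l - 1) :=
        Nat.mul_le_mul h3 (by omega)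
      have h7 : d * (l - 1) < d * l := Nat.mul_lt_mul_of_pos_left (by omega) hd
      omega
    have h6 : deltaEven (gr d l) = d := by
      refine le_antisymm h3 ?_
      rw [h5] at h1
      by_contra hcon
      push Not at hcon
      have h7 : deltaEven (gr d l) * l < d * l := Nat.mul_lt_mul_of_pos_right hcon hl
      omega
    refine ⟨h6, by omega, ?_⟩
    rw [h5, h6] at h1
    omega
  · rintro a ⟨V, _, _, G, hG, h1, h2, rfl⟩
    have h3 := Pool.Agent.Results.MP_c843e9_co.EvenDistances.result V G hG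
    rw [h1, h2, Nat.add_sub_cancel] at h3
    exact h3

end Pool.Agent.Results.MP_c843e9_co.SharpForAllParameters
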